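import Pool.Agent.U890.LC.C
import Pool.Agent.N965.LN.Log
import Pool.Agent.N965.LN.Cnt
import Pool.Agent.N965.LN.Ftl
import Pool.Agent.N965.LN.Ks
import Pool.Agent.N965.LN.Sch

/-!
# Lang's inequality for almost all elements of every coset of a finitely generated group of algebraic numbers

Let `e_1, …, e_m` be real algebraic numbers such that `1, e_1, …, e_m` are linearly independent over
`ℚ`, for instance a `ℤ`-basis of the integers of a real number field of degree `m + 1` modulo `ℤ`, or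
one irrational number (`m = 1`). Let `β` be any real number, for instance algebraic. We consider the
elements `β + a_1 e_1 + … + a_m e_m` of the coset `β + ℤ e_1 + … + ℤ e_m` with `a` in an arbitrary
cube of side `H`, so that no denominators are at our disposal. Let `κ < m`. For a nonincreasing
function `ψ` the inequality `|α - p / q| > c ψ(q) / q` holds

* if `∑ ψ(q)` converges, with a small constant `c`, for all `q ≤ H ^ κ` and all but `η H ^ m` of the
  elements; the number of exceptions is at most `C (c H ^ m + H ^ (m - σ) / c)`, `σ < m - κ`;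
* if `∑ ψ(q)` diverges, it fails for all but `η H ^ m` of the elements already for one bounded `q`.

Both are uniform in `β` and in the position of the cube. So Lang's inequality
`|α - p / q| > c / (q² (log q)^(1+ε))` holds for almost all elements of the coset for `q ≤ H ^ κ`, and
with `ε = 0` it fails for almost all of them, whatever the constant is.

Method. For given `q` the elements are counted with the Fejér majorant for differences of elements;
the resulting sums of products of Fejér kernels at the multiples `v q e` are estimated by Schmidt's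
theorem on simultaneous approximation (from the subspace theorem). For divergence the set of the
numbers without good approximations of bounded denominator has small measure by Khintchine's theorem,
is compact, and is covered by few short arcs, each of which contains few elements.
-/

set_option autoImplicit false

namespace Pool.Agent.Results.MP_c307ca_nt.ElementsOfCosets

open Pool.Agent.N965 Pool.Agent.U890

/-- `|α - p / q| > c ψ(q) / q` for all integers `p` and all `1 ≤ q ≤ N`. -/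
def KhintchineUpTo (N c : ℝ) (ψ : ℕ → ℝ) (α : ℝ) : Prop :=
  ∀ (p : ℤ) (q : ℕ), 1 ≤ q → (q : ℝ) ≤ N → c * ψ q / q < |α - (p : ℝ) / q|

/-- Lang's inequality for the number `α` with the constant `c`, for the denominators up to `N`. -/
def LangUpTo (N c ε α : ℝ) : Prop :=
  ∀ (p : ℤ) (q : ℕ), 2 ≤ q → (q : ℝ) ≤ N →
    c / ((q : ℝ) ^ 2 * Real.log q ^ (1 + ε)) < |α - (p : ℝ) / q|

/-- `|α - p / q| < ψ(q) / q` for an integer `p` and some `Q₀ ≤ q ≤ Q`. -/
def Approximable (Q₀ Q : ℕ) (ψ : ℕ → ℝ) (α : ℝ) : Prop :=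
  ∃ (p : ℤ) (q : ℕ), Q₀ ≤ q ∧ q ≤ Q ∧ |α - (p : ℝ) / q| < ψ q / q

/-- The number of the integral vectors `a` in the cube `s_i ≤ a_i < s_i + H` for which
`β + ∑ a_i e_i` does not have the property `P`. -/
noncomputable def exceptions {m : ℕ} (e : Fin m → ℝ) (β : ℝ) (s : Fin m → ℤ) (H : ℕ)
    (P : ℝ → Prop) : ℕ :=
  {a : Fin m → ℤ | (∀ i, s i ≤ a i ∧ a i < s i + H) ∧ ¬ P (β + ∑ i, (a i : ℝ) * e i)}.ncard

theorem indep {m : ℕ} (e : Fin m → ℝ)
    (hind : LinearIndependent ℚ (Fin.cons 1 e : Fin (m + 1) → ℝ)) : LN.Indep e := by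
  intro a a₀ h
  have h1 := Fintype.linearIndependent_iff.1 hind (Fin.cons (a₀ : ℚ) fun i => (a i : ℚ)) (by
    rw [Fin.sum_univ_succ]
    simp only [Fin.cons_zero, Fin.cons_succ]
    have h2 : ∀ (x : ℚ) (y : ℝ), x • y = (x : ℝ) * y := fun x y => Rat.smul_def x y
    simp only [h2]
    push_cast
    simpa using h)
  funext i
  have h2 := h1 i.succ
  rw [Fin.cons_succ] at h2
  exact_mod_cast h2

theorem mono_exc {m : ℕ} (e : Fin m → ℝ) (β : ℝ) (s : Fin m → ℤ) (H : ℕ) (P : ℝ → Prop)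
    (T : Set (Fin m → ℤ)) (hT : T ⊆ LC.cube s H)
    (h : ∀ a, (∀ i, s i ≤ a i ∧ a i < s i + H) → ¬ P (β + ∑ i, (a i : ℝ) * e i) → a ∈ T) :
    (exceptions e β s H P : ℝ) ≤ (T.ncard : ℝ) := by
  have hfin : T.Finite := (Finset.finite_toSet _).subset hT
  have h1 : exceptions e β s H P ≤ T.ncard :=
    Set.ncard_le_ncard (fun a ha => h a ha.1 ha.2) hfin
  exact_mod_cast h1

/-- `1 / (q log q)` for `q ≥ 2`, extended by its value at `2`, times `c`, is not summable -/
theorem not_summable (c : ℝ) (hc : 0 < c) : ¬ Summable fun q => c * LN.lang 0 q := by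
  intro h
  have h1 : Summable (LN.lang 0) := (summable_mul_left_iff hc.ne').1 h
  have ha : ∀ ⦃m n : ℕ⦄, 0 < m → m ≤ n → LN.lang 0 n ≤ LN.lang 0 m := by
    intro m n _ hmn
    unfold LN.lang
    have h1 := LN.log_max_pos m
    have h2 := LN.max_pos m
    have h3 : ((max m 2 : ℕ) : ℝ) ≤ ((max n 2 : ℕ) : ℝ) := by
      have : max m 2 ≤ max n 2 := by omega
      exact_mod_cast this
    apply one_div_le_one_div_of_le (by positivity)
    refine mul_le_mul h3 ?_ (by positivity) (by positivity)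
    exact Real.rpow_le_rpow h1.le (Real.log_le_log h2 h3) (by linarith)
  rw [← summable_condensed_iff_of_nonneg (LN.lang_nonneg 0) ha] at h1
  have h2 := (summable_nat_add_iff 1).2 h1
  have hl : (0 : ℝ) < Real.log 2 := Real.log_pos (by norm_num)
  have h3 : Summable fun k : ℕ => 1 / (((k + 1 : ℕ) : ℝ)) := by
    refine ((summable_mul_left_iff hl.ne').2 h2).congr fun k => ?_
    have e1 : max (2 ^ (k + 1)) 2 = 2 ^ (k + 1) := by
      have : (2 : ℕ) ^ 1 ≤ 2 ^ (k + 1) := Nat.pow_le_pow_right (by norm_num) (by omega)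
      omega
    unfold LN.lang
    rw [e1]
    push_cast
    rw [Real.log_pow, add_zero, Real.rpow_one]
    push_cast
    have e2 : (0 : ℝ) < (2 : ℝ) ^ (k + 1) := by positivity
    field_simp
  exact Real.not_summable_one_div_natCast ((summable_nat_add_iff 1).1 h3)

theorem lang_anti' (c : ℝ) (hc : 0 < c) : Antitone fun q => c * LN.lang 0 q := by
  intro m n hmn
  refine mul_le_mul_of_nonneg_left ?_ hc.le
  unfold LN.lang
  have h1 := LN.log_max_pos m
  have h2 := LN.max_pos m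
  have h3 : ((max m 2 : ℕ) : ℝ) ≤ ((max n 2 : ℕ) : ℝ) := by
    have : max m 2 ≤ max n 2 := by omega
    exact_mod_cast this
  apply one_div_le_one_div_of_le (by positivity)
  refine mul_le_mul h3 ?_ (by positivity) (by positivity)
  exact Real.rpow_le_rpow h1.le (Real.log_le_log h2 h3) (by linarith)

/-- **Khintchine's theorem and Lang's inequality for the elements of cosets.** Let `e_1, …, e_m`,
`m ≥ 1`, be real algebraic numbers such that `1, e_1, …, e_m` are linearly independent over `ℚ`.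

(1) Let `κ ≥ 0`, `κ + σ < m`, and let `ψ ≥ 0` be nonincreasing and summable. There is `C > 0` such
that for all `0 < c ≤ 1`, all `H ≥ 1`, all real `β` and all cubes of side `H` the inequality
`|α - p / q| > c ψ(q) / q` holds for all integers `p` and all `1 ≤ q ≤ H ^ κ`, for all the numbers
`α = β + a_1 e_1 + … + a_m e_m` with `a` in the cube but at most `C (c H ^ m + H ^ (m - σ) / c)`.

(2) Let `0 ≤ κ < m` and `ε, η > 0`. There are `c > 0` and `H₀` such that for all `H ≥ H₀`, all real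
`β` and all cubes of side `H` Lang's inequality `|α - p / q| > c / (q² (log q)^(1+ε))` holds for all
`p` and `2 ≤ q ≤ H ^ κ`, for all these `α` but at most `η H ^ m`.

(3) Let `ψ ≥ 0` be nonincreasing and not summable, `Q₀` a natural number and `η > 0`. There are `Q`
and `H₀` such that for all `H ≥ H₀`, all real `β` and all cubes of side `H` there are `p` and
`Q₀ ≤ q ≤ Q` with `|α - p / q| < ψ(q) / q`, for all these `α` but at most `η H ^ m`.

(4) For all `c, η > 0` there are `Q` and `H₀` such that for all `H ≥ H₀`, all real `β` and all cubes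
of side `H` Lang's inequality with `ε = 0` and the constant `c` is violated by some `2 ≤ q ≤ Q`, for
all these `α` but at most `η H ^ m`. -/
theorem result (m : ℕ) (hm : 1 ≤ m) (e : Fin m → ℝ) (halg : ∀ i, IsAlgebraic ℚ (e i))
    (hind : LinearIndependent ℚ (Fin.cons 1 e : Fin (m + 1) → ℝ)) :
    (∀ κ σ : ℝ, 0 ≤ κ → κ + σ < m → ∀ ψ : ℕ → ℝ, (∀ q, 0 ≤ ψ q) → Antitone ψ → Summable ψ →
      ∃ C : ℝ, 0 < C ∧ ∀ c : ℝ, 0 < c → c ≤ 1 → ∀ H : ℕ, 1 ≤ H → ∀ (β : ℝ) (s : Fin m → ℤ),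
        (exceptions e β s H (KhintchineUpTo ((H : ℝ) ^ κ) c ψ) : ℝ) ≤
          C * (c * (H : ℝ) ^ m + c⁻¹ * (H : ℝ) ^ ((m : ℝ) - σ))) ∧
    (∀ κ : ℝ, 0 ≤ κ → κ < m → ∀ ε η : ℝ, 0 < ε → 0 < η → ∃ (c : ℝ) (H₀ : ℕ), 0 < c ∧
      ∀ H : ℕ, H₀ ≤ H → ∀ (β : ℝ) (s : Fin m → ℤ),
        (exceptions e β s H (LangUpTo ((H : ℝ) ^ κ) c ε) : ℝ) ≤ η * (H : ℝ) ^ m) ∧
    (∀ ψ : ℕ → ℝ, (∀ q, 0 ≤ ψ q) → Antitone ψ → ¬ Summable ψ → ∀ (Q₀ : ℕ) (η : ℝ), 0 < η →
      ∃ Q H₀ : ℕ, ∀ H : ℕ, H₀ ≤ H → ∀ (β : ℝ) (s : Fin m → ℤ),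
        (exceptions e β s H (Approximable Q₀ Q ψ) : ℝ) ≤ η * (H : ℝ) ^ m) ∧
    (∀ c η : ℝ, 0 < c → 0 < η → ∃ Q H₀ : ℕ, ∀ H : ℕ, H₀ ≤ H → ∀ (β : ℝ) (s : Fin m → ℤ),
      (exceptions e β s H (fun α => ¬ LangUpTo Q c 0 α) : ℝ) ≤ η * (H : ℝ) ^ m) := by
  have hK : LN.Ksum e := LN.t_KS m e (LN.t_CNT m e (LN.t_SCH m e hm halg (indep e hind)))
  have hFT : LN.FT e := LN.t_FTL m e hK
  -- (1)
  have p1 : ∀ κ σ : ℝ, 0 ≤ κ → κ + σ < m → ∀ ψ : ℕ → ℝ, (∀ q, 0 ≤ ψ q) → Antitone ψ → Summable ψ →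
      ∃ C : ℝ, 0 < C ∧ ∀ c : ℝ, 0 < c → c ≤ 1 → ∀ H : ℕ, 1 ≤ H → ∀ (β : ℝ) (s : Fin m → ℤ),
        (exceptions e β s H (KhintchineUpTo ((H : ℝ) ^ κ) c ψ) : ℝ) ≤
          C * (c * (H : ℝ) ^ m + c⁻¹ * (H : ℝ) ^ ((m : ℝ) - σ)) := by
    intro κ σ hκ hκσ ψ h0 ha hs
    obtain ⟨C, hC, h⟩ := LC.conv e hFT κ σ hκ hκσ ψ h0 ha hs
    refine ⟨C, hC, fun c hc hc1 H hH β s => ?_⟩
    refine le_trans ?_ (h c hc hc1 H hH β s)
    refine mono_exc e β s H _ _ (fun a ha => ha.1) ?_
    intro a h1 h2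
    refine ⟨LC.mem_cube.2 h1, ?_⟩
    unfold KhintchineUpTo at h2
    push Not at h2
    exact h2
  -- (3)
  have p3 : ∀ ψ : ℕ → ℝ, (∀ q, 0 ≤ ψ q) → Antitone ψ → ¬ Summable ψ → ∀ (Q₀ : ℕ) (η : ℝ), 0 < η →
      ∃ Q H₀ : ℕ, ∀ H : ℕ, H₀ ≤ H → ∀ (β : ℝ) (s : Fin m → ℤ),
        (exceptions e β s H (Approximable Q₀ Q ψ) : ℝ) ≤ η * (H : ℝ) ^ m := by
    intro ψ h0 ha hd Q₀ η hη
    obtain ⟨Q, H₀, -, h⟩ := LC.div hm e hK ψ h0 ha hd (max Q₀ 1) η hη
    refine ⟨Q, H₀, fun H hH β s => ?_⟩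
    refine le_trans ?_ (h H hH β s)
    refine mono_exc e β s H _ _ (fun a ha => ha.1) ?_
    intro a h1 h2
    refine ⟨LC.mem_cube.2 h1, fun q hq1 hq2 => ?_⟩
    by_contra hcon
    push Not at hcon
    apply h2
    have hq : (0 : ℝ) < q := by
      have : 1 ≤ q := (le_max_right _ _).trans hq1
      exact_mod_cast this
    refine ⟨round ((q : ℝ) * (β + ∑ i, (a i : ℝ) * e i)), q, (le_max_left _ _).trans hq1, hq2, ?_⟩
    rw [lt_div_iff₀ hq]
    unfold LN.dn at hcon
    have h3 : |β + ∑ i, (a i : ℝ) * e i -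
        (round ((q : ℝ) * (β + ∑ i, (a i : ℝ) * e i)) : ℝ) / q| * q =
        |(q : ℝ) * (β + ∑ i, (a i : ℝ) * e i) -
          round ((q : ℝ) * (β + ∑ i, (a i : ℝ) * e i))| := by
      rw [← abs_of_pos hq, ← abs_mul, abs_of_pos hq]
      congr 1
      field_simp
    rw [h3]
    exact hcon
  refine ⟨p1, ?_, p3, ?_⟩
  -- (2)
  · intro κ hκ hκm ε η hε hη
    set σ := ((m : ℝ) - κ) / 2 with hσ
    have hσ0 : 0 < σ := by
      rw [hσ]
      linarith
    obtain ⟨C, hC, h⟩ := p1 κ σ hκ (by rw [hσ]; linarith) (LN.lang ε) (LN.lang_nonneg ε)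
      (LN.lang_anti ε hε) (LN.lang_summable ε hε)
    set c := min 1 (η / (2 * C)) with hc
    have hc0 : 0 < c := lt_min one_pos (by positivity)
    have hcC : C * c ≤ η / 2 := by
      have h1 : c ≤ η / (2 * C) := min_le_right _ _
      calc C * c ≤ C * (η / (2 * C)) := mul_le_mul_of_nonneg_left h1 hC.le
        _ = η / 2 := by field_simp
    obtain ⟨H₀, hH₀⟩ : ∃ H₀ : ℕ, ∀ H : ℕ, H₀ ≤ H → C * c⁻¹ / (η / 2) ≤ (H : ℝ) ^ σ := by
      have h1 := ((tendsto_rpow_atTop hσ0).comp tendsto_natCast_atTop_atTop).eventually_ge_atTop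
        (C * c⁻¹ / (η / 2))
      exact Filter.eventually_atTop.1 h1
    refine ⟨c, max H₀ 1, hc0, fun H hH β s => ?_⟩
    have hH1 : 1 ≤ H := (le_max_right _ _).trans hH
    have hHp : (0 : ℝ) < H := by exact_mod_cast hH1
    have h1 : (exceptions e β s H (LangUpTo ((H : ℝ) ^ κ) c ε) : ℝ) ≤
        (exceptions e β s H (KhintchineUpTo ((H : ℝ) ^ κ) c (LN.lang ε)) : ℝ) := by
      refine mono_exc e β s H _ _ (fun a ha => LC.mem_cube.2 ha.1) ?_
      intro a h2 h3
      refine ⟨h2, fun h4 => h3 ?_⟩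
      intro p q hq2 hqN
      have h5 := h4 p q (by omega) hqN
      have h6 : c * LN.lang ε q / q = c / ((q : ℝ) ^ 2 * Real.log q ^ (1 + ε)) := by
        rw [mul_div_assoc, LN.lang_eq ε q hq2, mul_one_div]
      rw [h6] at h5
      exact h5
    refine h1.trans ((h c hc0 (min_le_left _ _) H hH1 β s).trans ?_)
    have h2 : C * (c⁻¹ * (H : ℝ) ^ ((m : ℝ) - σ)) ≤ η / 2 * (H : ℝ) ^ m := by
      have h3 := hH₀ H ((le_max_left _ _).trans hH)
      rw [div_le_iff₀ (by positivity)] at h3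
      have h4 : (H : ℝ) ^ m = (H : ℝ) ^ σ * (H : ℝ) ^ ((m : ℝ) - σ) := by
        rw [← Real.rpow_add hHp, ← Real.rpow_natCast]
        congr 1
        ring
      rw [h4]
      have h5 : (0 : ℝ) ≤ (H : ℝ) ^ ((m : ℝ) - σ) := by positivity
      calc C * (c⁻¹ * (H : ℝ) ^ ((m : ℝ) - σ)) = (C * c⁻¹) * (H : ℝ) ^ ((m : ℝ) - σ) := by ring
        _ ≤ ((H : ℝ) ^ σ * (η / 2)) * (H : ℝ) ^ ((m : ℝ) - σ) := mul_le_mul_of_nonneg_right h3 h5
        _ = _ := by ring
    have h3 : C * (c * (H : ℝ) ^ m) ≤ η / 2 * (H : ℝ) ^ m := by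
      rw [← mul_assoc]
      exact mul_le_mul_of_nonneg_right hcC (by positivity)
    linarith
  -- (4)
  · intro c η hc hη
    obtain ⟨Q, H₀, h⟩ := p3 (fun q => c * LN.lang 0 q)
      (fun q => mul_nonneg hc.le (LN.lang_nonneg 0 q)) (lang_anti' c hc) (not_summable c hc) 2 η hη
    refine ⟨Q, H₀, fun H hH β s => ?_⟩
    refine le_trans ?_ (h H hH β s)
    refine mono_exc e β s H _ _ (fun a ha => LC.mem_cube.2 ha.1) ?_
    intro a h2 h3
    refine ⟨h2, fun h4 => h3 ?_⟩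
    intro h5
    obtain ⟨p, q, hq2, hqQ, h6⟩ := h4
    have h7 := h5 p q hq2 (by exact_mod_cast hqQ)
    have h8 : c * LN.lang 0 q / q = c / ((q : ℝ) ^ 2 * Real.log q ^ (1 + (0 : ℝ))) := by
      rw [mul_div_assoc, LN.lang_eq 0 q hq2, mul_one_div]
    rw [h8] at h6
    linarith

end Pool.Agent.Results.MP_c307ca_nt.ElementsOfCosets
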