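import Pool.Agent.U363.PV.R

/-!
# Lang's inequality for almost all values of polynomials

Let `ξ` be a real algebraic irrational number and `d ≥ 1`. We consider the values `P(n)`, `n < N`, of
the real polynomials `P` of degree at most `d` for which the coefficient of `n ^ j`, for one `j ≥ 1`,
is `A ξ + B` with integers `A ≠ 0` and `B`. The other coefficients are arbitrary real numbers
(algebraic ones, if the values are to be algebraic). For instance `P = ξ f + g` with integer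
polynomials `f` and `g`, `f` not constant. There is `κ > 0` which depends on `d` only such that, if
`|A| ≤ N ^ κ`, the inequality `|P(n) - a / q| > c ψ(q) / q`

* if `∑ ψ(q)` converges, holds for all `a` and `1 ≤ q ≤ N ^ κ`, with at most `C (c + N ^ (-κ)) N`
  exceptional `n` (no monotonicity of `ψ` is needed); so Lang's inequality holds for all but `η N` of
  the values;
* if `ψ` is nonincreasing and `∑ ψ(q)` diverges, fails (for `c = 1`) already for one bounded `q`, for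
  all but `η N` of the values; so `1 + ε` in Lang's inequality cannot be replaced by `1`.

All constants depend on `ξ`, `d`, `j` and `ψ` only, not on `P`.

Method. For a denominator `q` the `n` with `‖q P(n)‖ ≤ ρ` are counted with a Fejér majorant; this leads
to the Weyl sums of `m q P(n)`. If one of them is large, then all the coefficients of `m q P` are close
to fractions with one small denominator (the inverse theorem `Pool.Agent.U471.DQ.IA_all`), in
particular `m q A ξ`, which contradicts Roth's theorem (the library's `Pool.Agent.N965.LN.t_SCH`). The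
divergence part covers the compact set of the numbers which are not approximable by `q ≤ Q`, as in
`ElementsOfCosets` (`Pool.Agent.U890.LC`, Khintchine's theorem).
-/

set_option autoImplicit false

namespace Pool.Agent.Results.MP_c307ca_nt.PolynomialValues

open Finset Polynomial Pool.Agent.N965 Pool.Agent.U363

/-- `|α - a / q| ≤ c ψ(q) / q` for some integer `a` and some `1 ≤ q ≤ Y`. -/
def Exceptional (Y c : ℝ) (ψ : ℕ → ℝ) (α : ℝ) : Prop :=
  ∃ (a : ℤ) (q : ℕ), 1 ≤ q ∧ (q : ℝ) ≤ Y ∧ |α - (a : ℝ) / q| ≤ c * ψ q / q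

/-- Lang's inequality for the number `α` with the constant `c`, for the denominators up to `Y`. -/
def LangUpTo (Y c ε α : ℝ) : Prop :=
  ∀ (a : ℤ) (q : ℕ), 2 ≤ q → (q : ℝ) ≤ Y →
    c / ((q : ℝ) ^ 2 * Real.log q ^ (1 + ε)) < |α - (a : ℝ) / q|

/-- `|α - a / q| < ψ(q) / q` for some integer `a` and some `q` between `Q₀` and `Q`. -/
def Approximable (Q₀ Q : ℕ) (ψ : ℕ → ℝ) (α : ℝ) : Prop :=
  ∃ (a : ℤ) (q : ℕ), Q₀ ≤ q ∧ q ≤ Q ∧ |α - (a : ℝ) / q| < ψ q / q

/-- The number of the natural numbers `n < N` for which `P(n)` has the property `T`. -/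
noncomputable def count (P : ℝ[X]) (N : ℕ) (T : ℝ → Prop) : ℕ :=
  Set.ncard {n : ℕ | n < N ∧ T (P.eval (n : ℝ))}

open scoped Classical in
theorem count_le (P : ℝ[X]) (N : ℕ) (T T' : ℝ → Prop) (h : ∀ n : ℕ, T (P.eval (n : ℝ)) →
    T' (P.eval (n : ℝ))) :
    (count P N T : ℝ) ≤ (((range N).filter (fun n : ℕ => T' (P.eval (n : ℝ)))).card : ℝ) := by
  have h1 : {n : ℕ | n < N ∧ T (P.eval (n : ℝ))} ⊆
      (((range N).filter (fun n : ℕ => T' (P.eval (n : ℝ))) : Finset ℕ) : Set ℕ) := by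
    rintro n ⟨h2, h3⟩
    rw [mem_coe, mem_filter, mem_range]
    exact ⟨h2, h n h3⟩
  have h2 := Set.ncard_le_ncard h1 (Finset.finite_toSet _)
  rw [Set.ncard_coe_finset] at h2
  unfold count
  exact_mod_cast h2

theorem exc_of_not_lang {N c ε α : ℝ} (h : ¬ LangUpTo N c ε α) :
    PV.Exc N c (LN.lang ε) α := by
  unfold LangUpTo at h
  push Not at h
  obtain ⟨a, q, h1, h2, h3⟩ := h
  refine ⟨a, q, by omega, h2, ?_⟩
  have h8 : c * LN.lang ε q / q = c / ((q : ℝ) ^ 2 * Real.log q ^ (1 + ε)) := by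
    rw [mul_div_assoc, LN.lang_eq ε q h1, mul_one_div]
  rw [h8]
  exact h3

/-- **Khintchine's theorem and Lang's inequality for the values of polynomials.** Let `d ≥ 1`. There
is `κ > 0` such that for every real algebraic irrational number `ξ` and every `1 ≤ j ≤ d` the
following holds for all real polynomials `P` of degree at most `d` with the coefficient `A ξ + B` at
`j`, where `A` and `B` are integers and `1 ≤ |A| ≤ N ^ κ`.

(1) Let `ψ ≥ 0` be summable. There is `C > 0`, independent of `P`, such that for all `N ≥ 1` and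
`c > 0` at most `C (c + N ^ (-κ)) N` of the `n < N` have `|P(n) - a / q| ≤ c ψ(q) / q` for some
integer `a` and some `1 ≤ q ≤ N ^ κ`.

(2) For all `ε, η > 0` there are `c > 0` and `N₀`, independent of `P`, such that for `N ≥ N₀` all but
at most `η N` of the `n < N` satisfy Lang's inequality `|P(n) - a / q| > c / (q² (log q)^(1+ε))` for
all integers `a` and all `2 ≤ q ≤ N ^ κ`.

(3) Let `ψ ≥ 0` be nonincreasing and not summable, `Q₀` a natural number and `η > 0`. There are `Q`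
and `N₀`, independent of `P`, such that for `N ≥ N₀` all but at most `η N` of the `n < N` have
`|P(n) - a / q| < ψ(q) / q` for some integer `a` and some `Q₀ ≤ q ≤ Q`.

(4) For all `c, η > 0` there are `Q` and `N₀`, independent of `P`, such that for `N ≥ N₀` all but at
most `η N` of the `n < N` violate Lang's inequality with `ε = 0` and the constant `c` at some
`2 ≤ q ≤ Q`. -/
theorem result (d : ℕ) (hd : 1 ≤ d) :
    ∃ κ : ℝ, 0 < κ ∧ ∀ ξ : ℝ, Irrational ξ → IsAlgebraic ℚ ξ → ∀ j : ℕ, 1 ≤ j → j ≤ d →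
      (∀ ψ : ℕ → ℝ, (∀ q, 0 ≤ ψ q) → Summable ψ →
        ∃ C : ℝ, 0 < C ∧ ∀ P : ℝ[X], P.natDegree ≤ d → ∀ A B : ℤ, A ≠ 0 →
          P.coeff j = A * ξ + B → ∀ N : ℕ, 1 ≤ N → |(A : ℝ)| ≤ (N : ℝ) ^ κ → ∀ c : ℝ, 0 < c →
          (count P N (Exceptional ((N : ℝ) ^ κ) c ψ) : ℝ) ≤ C * (c + (N : ℝ) ^ (-κ)) * N) ∧
      (∀ ε η : ℝ, 0 < ε → 0 < η → ∃ (c : ℝ) (N₀ : ℕ), 0 < c ∧
        ∀ P : ℝ[X], P.natDegree ≤ d → ∀ A B : ℤ, A ≠ 0 → P.coeff j = A * ξ + B →
          ∀ N : ℕ, N₀ ≤ N → |(A : ℝ)| ≤ (N : ℝ) ^ κ →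
          (count P N (fun α => ¬ LangUpTo ((N : ℝ) ^ κ) c ε α) : ℝ) ≤ η * N) ∧
      (∀ ψ : ℕ → ℝ, (∀ q, 0 ≤ ψ q) → Antitone ψ → ¬ Summable ψ → ∀ (Q₀ : ℕ) (η : ℝ), 0 < η →
        ∃ Q N₀ : ℕ, ∀ P : ℝ[X], P.natDegree ≤ d → ∀ A B : ℤ, A ≠ 0 → P.coeff j = A * ξ + B →
          ∀ N : ℕ, N₀ ≤ N → |(A : ℝ)| ≤ (N : ℝ) ^ κ →
          (count P N (fun α => ¬ Approximable Q₀ Q ψ α) : ℝ) ≤ η * N) ∧
      (∀ c η : ℝ, 0 < c → 0 < η →
        ∃ Q N₀ : ℕ, ∀ P : ℝ[X], P.natDegree ≤ d → ∀ A B : ℤ, A ≠ 0 → P.coeff j = A * ξ + B →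
          ∀ N : ℕ, N₀ ≤ N → |(A : ℝ)| ≤ (N : ℝ) ^ κ →
          (count P N (LangUpTo Q c 0) : ℝ) ≤ η * N) := by
  classical
  obtain ⟨δ, hδ0, hδ1, hweyl⟩ := PV.weyl d hd
  set κ : ℝ := min (1 / 40) (δ / 2) with hκ
  have hκ0 : 0 < κ := lt_min (by norm_num) (by linarith)
  have hκ1 : κ ≤ 1 / 40 := min_le_left _ _
  have hκ2 : 2 * κ ≤ δ := by
    have : κ ≤ δ / 2 := min_le_right _ _
    linarith
  refine ⟨κ, hκ0, fun ξ hξ hξ' j hj1 hj2 => ?_⟩
  obtain ⟨c₁, hc₁, hR⟩ := PV.roth hξ hξ'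
  obtain ⟨N₁, hN₁, hW'⟩ := hweyl ξ c₁ hc₁ hR
  have hW := hW' j hj1 hj2
  refine ⟨?_, ?_, ?_, ?_⟩
  · intro ψ h0 hs
    obtain ⟨C, hC, h⟩ := PV.conv hW κ hκ0 hκ1 hκ2 ψ h0 hs
    exact ⟨C, hC, fun P hP A B hA hPj N hN hAN c hc =>
      (count_le P N _ _ fun n hn => hn).trans (h P hP A B hA hPj N hN hAN c hc)⟩
  · intro ε η hε hη
    obtain ⟨C, hC, h⟩ := PV.conv hW κ hκ0 hκ1 hκ2 (LN.lang ε) (LN.lang_nonneg ε)
      (LN.lang_summable ε hε)
    obtain ⟨N₀, hN₀⟩ := exists_nat_ge ((2 * C / η) ^ (1 / κ))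
    refine ⟨η / (2 * C), max N₀ 1, by positivity, fun P hP A B hA hPj N hN hAN => ?_⟩
    have hN1' : 1 ≤ N := (le_max_right _ _).trans hN
    have hN1 : (1 : ℝ) ≤ N := by exact_mod_cast hN1'
    have hN0 : (0 : ℝ) < N := by linarith
    refine (count_le P N _ _ fun n hn => exc_of_not_lang hn).trans
      ((h P hP A B hA hPj N hN1' hAN _ (by positivity)).trans ?_)
    have h1 : 2 * C / η ≤ (N : ℝ) ^ κ := by
      have h2 : ((2 * C / η) ^ (1 / κ)) ≤ (N : ℝ) :=
        hN₀.trans (by exact_mod_cast (le_max_left _ _).trans hN)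
      calc 2 * C / η = ((2 * C / η) ^ (1 / κ)) ^ κ := by
            rw [← Real.rpow_mul (by positivity), one_div, inv_mul_cancel₀ hκ0.ne', Real.rpow_one]
        _ ≤ (N : ℝ) ^ κ := Real.rpow_le_rpow (by positivity) h2 hκ0.le
    have h3 : (N : ℝ) ^ (-κ) ≤ η / (2 * C) := by
      rw [Real.rpow_neg hN0.le, inv_le_comm₀ (by positivity) (by positivity), inv_div]
      exact h1
    apply mul_le_mul_of_nonneg_right _ hN0.le
    calc C * (η / (2 * C) + (N : ℝ) ^ (-κ)) ≤ C * (η / (2 * C) + η / (2 * C)) := by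
          apply mul_le_mul_of_nonneg_left _ hC.le
          linarith
      _ = η := by
          field_simp
          norm_num
  · intro ψ h0 ha hd' Q₀ η hη
    obtain ⟨Q, N₂, h⟩ := PV.divg hW hj1 hδ0 κ hκ1 ψ h0 ha hd' (max Q₀ 1) η hη
    refine ⟨Q, N₂, fun P hP A B hA hPj N hN hAN => ?_⟩
    refine (count_le P N _ (fun α => ∀ q : ℕ, max Q₀ 1 ≤ q → q ≤ Q →
        ψ q ≤ LN.dn ((q : ℝ) * α)) fun n hn => ?_).trans
      (le_trans (le_of_eq (by congr)) (h P hP A B hA hPj N hN hAN))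
    intro q hq1 hq2
    by_contra hcon
    push Not at hcon
    apply hn
    have hq : (0 : ℝ) < q := by
      have : 1 ≤ q := (le_max_right _ _).trans hq1
      exact_mod_cast this
    refine ⟨round ((q : ℝ) * P.eval (n : ℝ)), q, (le_max_left _ _).trans hq1, hq2, ?_⟩
    rw [lt_div_iff₀ hq]
    unfold LN.dn at hcon
    refine lt_of_le_of_lt (le_of_eq ?_) hcon
    rw [← abs_of_pos hq, ← abs_mul, abs_of_pos hq]
    congr 1
    field_simp
  · intro c η hc hη
    obtain ⟨Q, N₂, h⟩ := PV.divg hW hj1 hδ0 κ hκ1 (fun q => c * LN.lang 0 q)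
      (fun q => mul_nonneg hc.le (LN.lang_nonneg 0 q)) (PV.lang_anti' c hc)
      (PV.not_summable c hc) 2 η hη
    refine ⟨Q, N₂, fun P hP A B hA hPj N hN hAN => ?_⟩
    refine (count_le P N _ (fun α => ∀ q : ℕ, 2 ≤ q → q ≤ Q →
        c * LN.lang 0 q ≤ LN.dn ((q : ℝ) * α)) fun n hn => ?_).trans
      (le_trans (le_of_eq (by congr)) (h P hP A B hA hPj N hN hAN))
    intro q hq1 hq2
    have hq : (0 : ℝ) < q := by
      have : 1 ≤ q := by omega
      exact_mod_cast this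
    have h1 := hn (round ((q : ℝ) * P.eval (n : ℝ))) q hq1 (by exact_mod_cast hq2)
    rw [← mul_one_div, ← LN.lang_eq 0 q hq1, ← mul_div_assoc, div_lt_iff₀ hq] at h1
    refine h1.le.trans (le_of_eq ?_)
    unfold LN.dn
    rw [← abs_of_pos hq, ← abs_mul, abs_of_pos hq]
    congr 1
    field_simp

end Pool.Agent.Results.MP_c307ca_nt.PolynomialValues
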