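import Pool.Agent.U867.PM.Fin

/-!
# Lang's inequality for almost all prime multiples of an algebraic number

Let `ξ` be a real algebraic irrational number and `κ < 1`.

(1) Let `D` be a nonempty finite set of natural numbers and let `ψ ≥ 0` be nonincreasing and
summable. There are `C, δ > 0` such that for all `N ≥ 2`, all `0 < c ≤ 1` and ALL real numbers `ζ`,
at most `C (c + N ^ (-δ)) N / (log N) ^ |D|` of the `n ≤ N` for which all the `n + h`, `h ∈ D`, are
primes have the property that `|n ξ + ζ - a / q| ≤ c ψ(q) / q` for some integer `a` and some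
`1 ≤ q ≤ N ^ κ`. (`D = {0}`: the primes; `D = {0, 2}`: the twin primes.)

(2) In particular, for all `ε, η > 0` there is `c > 0` such that for every `N` all but at most `η π(N)`
of the primes `p ≤ N` are such that the algebraic number `α = p ξ` satisfies Lang's inequality
`|α - a / q| > c / (q² (log q)^(1+ε))` for all integers `a` and all `2 ≤ q ≤ N ^ κ`.

Method. For a denominator `q` the `n` with `‖q (n ξ + ζ)‖ ≤ ρ` are counted with a Fejér majorant as
weight in Selberg's upper bound sieve of dimension `|D|` (`Pool.Agent.U867.PM.weighted`, a weighted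
form of `Pool.Agent.N893.PG.rough_shift`). The remainders of all `q ≤ N ^ κ` and all residue classes
to moduli up to a small power of `N` lead to the sums of `min (N, 1 / (2 ‖v l q ξ‖))` over
`v ≤ N ^ (κ + o(1))`, `l ≤ N ^ o(1)`, `q ≤ N ^ κ`, which are at most `N ^ (2 κ + o(1))` by the divisor
bound and by Roth's theorem (the library's Schmidt theorem `Pool.Agent.N965.LN.t_SCH` for one number);
multiplied by `ρ = c ψ(q) ≤ N ^ o(1) / q` this is at most `N ^ (κ + o(1))`.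
-/

set_option autoImplicit false

namespace Pool.Agent.Results.MP_c307ca_nt.PrimeMultiples

open Finset Pool.Agent.N965

/-- `|α - a / q| ≤ c ψ(q) / q` for some integer `a` and some `1 ≤ q ≤ N`. -/
def Exceptional (N c : ℝ) (ψ : ℕ → ℝ) (α : ℝ) : Prop :=
  ∃ (a : ℤ) (q : ℕ), 1 ≤ q ∧ (q : ℝ) ≤ N ∧ |α - (a : ℝ) / q| ≤ c * ψ q / q

/-- Lang's inequality for the number `α` with the constant `c`, for the denominators up to `N`. -/
def LangUpTo (N c ε α : ℝ) : Prop :=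
  ∀ (a : ℤ) (q : ℕ), 2 ≤ q → (q : ℝ) ≤ N →
    c / ((q : ℝ) ^ 2 * Real.log q ^ (1 + ε)) < |α - (a : ℝ) / q|

theorem exc_of_not_lang {N c ε α : ℝ} (h : ¬ LangUpTo N c ε α) : Exceptional N c (LN.lang ε) α := by
  unfold LangUpTo at h
  push Not at h
  obtain ⟨a, q, h1, h2, h3⟩ := h
  refine ⟨a, q, by omega, h2, ?_⟩
  have h8 : c * LN.lang ε q / q = c / ((q : ℝ) ^ 2 * Real.log q ^ (1 + ε)) := by
    rw [mul_div_assoc, LN.lang_eq ε q h1, mul_one_div]
  rw [h8]
  exact h3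

open scoped Classical in
/-- **Lang's inequality for almost all prime multiples of an algebraic number.** -/
theorem result (ξ : ℝ) (hξ : Irrational ξ) (hξ' : IsAlgebraic ℚ ξ) (κ : ℝ) (hκ : κ < 1) :
    (∀ D : Finset ℕ, D.Nonempty → ∀ ψ : ℕ → ℝ, (∀ q, 0 ≤ ψ q) → Antitone ψ → Summable ψ →
      ∃ C δ : ℝ, 0 < C ∧ 0 < δ ∧ ∀ N : ℕ, 2 ≤ N → ∀ c : ℝ, 0 < c → c ≤ 1 → ∀ ζ : ℝ,
        (((Icc 1 N).filter (fun n : ℕ => (∀ h ∈ D, (n + h).Prime) ∧
          Exceptional ((N : ℝ) ^ κ) c ψ (n * ξ + ζ))).card : ℝ) ≤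
          C * (c + (N : ℝ) ^ (-δ)) * N / (Real.log N) ^ D.card) ∧
    (∀ ε η : ℝ, 0 < ε → 0 < η → ∃ c : ℝ, 0 < c ∧ ∀ N : ℕ,
      (((Icc 1 N).filter (fun p : ℕ => p.Prime ∧ ¬ LangUpTo ((N : ℝ) ^ κ) c ε (p * ξ))).card : ℝ) ≤
        η * (((Icc 1 N).filter (fun p : ℕ => p.Prime)).card : ℝ)) := by
  have hfull : ∀ D : Finset ℕ, D.Nonempty → ∀ ψ : ℕ → ℝ, (∀ q, 0 ≤ ψ q) → Antitone ψ → Summable ψ →
      ∃ C δ : ℝ, 0 < C ∧ 0 < δ ∧ ∀ N : ℕ, 2 ≤ N → ∀ c : ℝ, 0 < c → c ≤ 1 → ∀ ζ : ℝ,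
        (((Icc 1 N).filter (fun n : ℕ => (∀ h ∈ D, (n + h).Prime) ∧
          Exceptional ((N : ℝ) ^ κ) c ψ (n * ξ + ζ))).card : ℝ) ≤
          C * (c + (N : ℝ) ^ (-δ)) * N / (Real.log N) ^ D.card :=
    fun D hD ψ h1 h2 h3 => Pool.Agent.U867.PM.full hξ hξ' κ hκ D hD ψ h1 h2 h3
  refine ⟨hfull, fun ε η hε hη => ?_⟩
  obtain ⟨C, δ, hC, hδ, h⟩ := hfull {0} (singleton_nonempty 0) (LN.lang ε) (LN.lang_nonneg ε)
    (LN.lang_anti ε hε) (LN.lang_summable ε hε)
  set κ' := max κ 0 with hκ'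
  -- a threshold
  obtain ⟨N₀, hN₀⟩ : ∃ N₀ : ℕ, ∀ N : ℕ, N₀ ≤ N → 16 * C / η ≤ (N : ℝ) ^ δ := by
    have h1 := ((tendsto_rpow_atTop hδ).comp tendsto_natCast_atTop_atTop).eventually_ge_atTop
      (16 * C / η)
    exact Filter.eventually_atTop.1 h1
  obtain ⟨c₂, hc₂, hsmall⟩ := LN.t_SMALL 1 (fun _ : Fin 1 => ξ) (Pool.Agent.U867.PM.indep_one hξ)
    (LN.lang ε) N₀ ⌊(N₀ : ℝ) ^ κ'⌋₊
  set c₁ := min 1 (η / (16 * C)) with hc₁
  have hc₁0 : 0 < c₁ := lt_min one_pos (by positivity)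
  have hc₁1 : c₁ ≤ 1 := min_le_left _ _
  refine ⟨min c₁ c₂, lt_min hc₁0 hc₂, fun N => ?_⟩
  have hcm0 : 0 < min c₁ c₂ := lt_min hc₁0 hc₂
  rcases Nat.lt_or_ge N N₀ with hlt | hge
  · -- small `N`: there are no exceptions
    have hempty : (Icc 1 N).filter (fun p : ℕ => p.Prime ∧
        ¬ LangUpTo ((N : ℝ) ^ κ) (min c₁ c₂) ε (p * ξ)) = ∅ := by
      rw [Finset.filter_eq_empty_iff]
      rintro p hp ⟨hpp, hL⟩
      rw [mem_Icc] at hp
      obtain ⟨a, q, h1, h2, h3⟩ := exc_of_not_lang hL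
      have hN1 : (1 : ℝ) ≤ N := by exact_mod_cast hp.1.trans hp.2
      have hq0 : (0 : ℝ) < q := by exact_mod_cast h1
      have hqN : q ≤ ⌊(N₀ : ℝ) ^ κ'⌋₊ := by
        apply Nat.le_floor
        refine h2.trans ((Real.rpow_le_rpow_of_exponent_le hN1 (le_max_left κ 0)).trans ?_)
        exact Real.rpow_le_rpow (by positivity) (by exact_mod_cast hlt.le) (le_max_right _ _)
      have hN₀1 : 1 ≤ N₀ := by omega
      have h4 := hsmall 1 0 (fun _ => (p : ℤ)) le_rfl hN₀1 (by rw [mem_Icc]; omega) (by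
        unfold LN.box
        rw [Fintype.mem_piFinset]
        intro i
        rw [mem_Icc]
        omega) (by
        intro h5
        have h6 := congrFun h5 0
        have h7 : (p : ℤ) = 0 := h6
        omega) a q h1 hqN
      have h5 : LN.num (fun _ : Fin 1 => ξ) 1 0 (fun _ => (p : ℤ)) = p * ξ := by
        unfold LN.num
        simp
      rw [h5] at h4
      have h6 : min c₁ c₂ * LN.lang ε q / q ≤ c₂ * LN.lang ε q / q :=
        div_le_div_of_nonneg_right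
          (mul_le_mul_of_nonneg_right (min_le_right _ _) (LN.lang_nonneg ε q)) hq0.le
      linarith
    rw [hempty, card_empty, Nat.cast_zero]
    positivity
  rcases Nat.lt_or_ge N 2 with hN2 | hN2
  · have hempty : (Icc 1 N).filter (fun p : ℕ => p.Prime ∧
        ¬ LangUpTo ((N : ℝ) ^ κ) (min c₁ c₂) ε (p * ξ)) = ∅ := by
      rw [Finset.filter_eq_empty_iff]
      rintro p hp ⟨hpp, -⟩
      rw [mem_Icc] at hp
      have := hpp.two_le
      omega
    rw [hempty, card_empty, Nat.cast_zero]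
    positivity
  -- large `N`
  have hNr : (2 : ℝ) ≤ N := by exact_mod_cast hN2
  have hN0 : (0 : ℝ) < N := by linarith
  have hlog : 0 < Real.log N := Real.log_pos (by linarith)
  have h1 := h N hN2 c₁ hc₁0 hc₁1 0
  rw [card_singleton, pow_one] at h1
  have hsub : (Icc 1 N).filter (fun p : ℕ => p.Prime ∧
      ¬ LangUpTo ((N : ℝ) ^ κ) (min c₁ c₂) ε (p * ξ)) ⊆
      (Icc 1 N).filter (fun n : ℕ => (∀ h ∈ ({0} : Finset ℕ), (n + h).Prime) ∧
        Exceptional ((N : ℝ) ^ κ) c₁ (LN.lang ε) (n * ξ + 0)) := by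
    intro p hp
    rw [mem_filter] at hp ⊢
    refine ⟨hp.1, ?_, ?_⟩
    · intro h hh
      rw [mem_singleton] at hh
      rw [hh, add_zero]
      exact hp.2.1
    · obtain ⟨a, q, g1, g2, g3⟩ := exc_of_not_lang hp.2.2
      have hq0 : (0 : ℝ) < q := by exact_mod_cast g1
      refine ⟨a, q, g1, g2, ?_⟩
      rw [add_zero]
      refine g3.trans ?_
      exact div_le_div_of_nonneg_right
        (mul_le_mul_of_nonneg_right (min_le_left _ _) (LN.lang_nonneg ε q)) hq0.le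
  have h2 : (((Icc 1 N).filter (fun p : ℕ => p.Prime ∧
      ¬ LangUpTo ((N : ℝ) ^ κ) (min c₁ c₂) ε (p * ξ))).card : ℝ) ≤
      C * (c₁ + (N : ℝ) ^ (-δ)) * N / Real.log N :=
    le_trans (by exact_mod_cast card_le_card hsub) h1
  have h3 : C * c₁ ≤ η / 16 := by
    calc C * c₁ ≤ C * (η / (16 * C)) := mul_le_mul_of_nonneg_left (min_le_right _ _) hC.le
      _ = η / 16 := by field_simp
  have h4 : C * (N : ℝ) ^ (-δ) ≤ η / 16 := by
    have h5 := hN₀ N hge
    rw [Real.rpow_neg hN0.le, ← div_eq_mul_inv, div_le_iff₀ (by positivity)]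
    rw [div_le_iff₀ hη] at h5
    linarith
  have h5 := Pool.Agent.U867.PM.pi_lower N hN2
  have h6 : 0 ≤ (N : ℝ) / Real.log N := by positivity
  calc _ ≤ C * (c₁ + (N : ℝ) ^ (-δ)) * N / Real.log N := h2
    _ = (C * c₁ + C * (N : ℝ) ^ (-δ)) * ((N : ℝ) / Real.log N) := by ring
    _ ≤ (η / 16 + η / 16) * (8 * (((Icc 1 N).filter (fun p : ℕ => p.Prime)).card : ℝ)) := by
        refine mul_le_mul (by linarith) ?_ h6 (by positivity)
        convert h5
    _ = η * (((Icc 1 N).filter (fun p : ℕ => p.Prime)).card : ℝ) := by ring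

end Pool.Agent.Results.MP_c307ca_nt.PrimeMultiples
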