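import Mathlib
import Pool.Agent.U773.RS.Dig

/-!
# Lang's inequality for fractions built from almost-units

For every real algebraic irrational `ξ`: Ridout's theorem for numerators and denominators which are
sums, Lang's inequality with a power saving for all fractions whose denominator or numerator is close
to a multiple of a large `S`-unit, and the digits of the convergents of `ξ`.
-/

set_option autoImplicit false

namespace Pool.Agent.Results.MP_c307ca_nt.SumsOfAlmostUnits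

/-- the `S`-free part of the integer `v`: the largest divisor of `|v|` not divisible by a prime of
`S` -/
def free (S : Finset ℕ) (v : ℤ) : ℕ := v.natAbs / ∏ p ∈ S, p ^ padicValNat p v.natAbs

/-- `Near S δ q N`: there is a positive integer `u` composed of primes of `S` with `q ^ δ ≤ u ≤ q`
such that the distance of `N` to the multiples of `u` is at most `u q ^ (-δ)`. -/
def Near (S : Finset ℕ) (δ : ℝ) (q : ℕ) (N : ℤ) : Prop :=
  ∃ u : ℕ, (∀ p : ℕ, p.Prime → p ∣ u → p ∈ S) ∧ (q : ℝ) ^ δ ≤ u ∧ u ≤ q ∧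
    ∃ j : ℤ, |(N : ℝ) - j * u| ≤ u * (q : ℝ) ^ (-δ)

/-- Let `ξ` be a real algebraic irrational number.
(1) Let `S` be a finite set of primes, `a_1, …, a_r`, `b_1, …, b_r` integers and `ε > 0`.  There is
`c > 0` such that for all nonzero integers `x_1, …, x_r` with `|x_i| ≤ H` and `q = ∑ a_i x_i ≠ 0`,
`p = ∑ b_i x_i` the product of `|ξ - p / q|` and of the `S`-free parts of the `x_i` is at least
`c H ^ (-ε)`.
(2) Let `S` be a finite set of primes and `δ, ε > 0`.  There is `c > 0` such that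
`|ξ - p / q| ≥ c q ^ (-2 + δ - ε)` for all integers `p` and `q ≥ 2` such that `q` or `p` is close to
a multiple of a large `S`-unit, in the sense of `Near S δ q`.
(3) Let `b ≥ 2` and `δ > 0`.  There is `Q` such that for all `p / q` with `q ≥ Q` and
`|ξ - p / q| ≤ 1 / q ^ 2` the numbers `q` and `|p|`, written in base `b`, have no run of `l` zeros
and no run of `l` digits `b - 1` with `b ^ l ≥ q ^ δ` (below the place of `q`). -/
theorem result (ξ : ℝ) (hξ : IsAlgebraic ℚ ξ) (hirr : Irrational ξ) :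
    (∀ S : Finset ℕ, (∀ p ∈ S, p.Prime) → ∀ (r : ℕ) (a b : Fin r → ℤ) (ε : ℝ), 0 < ε →
      ∃ c : ℝ, 0 < c ∧ ∀ (x : Fin r → ℤ) (H : ℝ), (∀ i, x i ≠ 0 ∧ |(x i : ℝ)| ≤ H) →
        ∀ q p : ℤ, q = ∑ i, a i * x i → p = ∑ i, b i * x i → q ≠ 0 →
        c * H ^ (-ε) ≤ |ξ - (p : ℝ) / q| * ∏ i, (free S (x i) : ℝ)) ∧
    (∀ S : Finset ℕ, (∀ p ∈ S, p.Prime) → ∀ δ ε : ℝ, 0 < δ → 0 < ε →
      ∃ c : ℝ, 0 < c ∧ ∀ (p : ℤ) (q : ℕ), 2 ≤ q → (Near S δ q q ∨ Near S δ q p) →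
        c * (q : ℝ) ^ (-2 + δ - ε) ≤ |ξ - (p : ℝ) / q|) ∧
    (∀ b : ℕ, 2 ≤ b → ∀ δ : ℝ, 0 < δ →
      ∃ Q : ℕ, ∀ (p : ℤ) (q : ℕ), Q ≤ q → |ξ - (p : ℝ) / q| ≤ 1 / (q : ℝ) ^ 2 →
        ∀ M j l : ℕ, (M = q ∨ M = p.natAbs) → b ^ (j + l) ≤ q → (q : ℝ) ^ δ ≤ (b : ℝ) ^ l →
          M / b ^ j % b ^ l ≠ 0 ∧ M / b ^ j % b ^ l ≠ b ^ l - 1) := by
  refine ⟨?_, ?_, ?_⟩
  · intro S hS r a b ε hε
    obtain ⟨c, hc, h⟩ := Pool.Agent.U773.RS.main hξ hirr hS r a b ε hε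
    refine ⟨c, hc, ?_⟩
    intro x H hx q p hq hp hq0
    have h1 := h x H hx (by rw [← hq]; exact hq0)
    rw [← hq, ← hp] at h1
    have hqR : (0 : ℝ) < |(q : ℝ)| := abs_pos.2 (by exact_mod_cast hq0)
    have h2 : |ξ * q - p| = |ξ - (p : ℝ) / q| * |(q : ℝ)| := by
      rw [← abs_mul]
      congr 1
      have : (q : ℝ) ≠ 0 := by exact_mod_cast hq0
      field_simp
    rw [h2] at h1
    have h3 : (c * H ^ (-ε)) * |(q : ℝ)| ≤
        (|ξ - (p : ℝ) / q| * ∏ i, (Pool.Agent.U773.SF.free S (x i) : ℝ)) * |(q : ℝ)| := by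
      calc (c * H ^ (-ε)) * |(q : ℝ)| = c * |(q : ℝ)| * H ^ (-ε) := by ring
        _ ≤ _ := h1
        _ = _ := by ring
    exact le_of_mul_le_mul_right h3 hqR
  · intro S hS δ ε hδ hε
    obtain ⟨c, hc, h⟩ := Pool.Agent.U773.RS.near hξ hirr hS hδ hε
    exact ⟨c, hc, fun p q hq hN => h p q hq hN⟩
  · intro b hb δ hδ
    exact Pool.Agent.U773.RS.digits hξ hirr b hb δ hδ

end Pool.Agent.Results.MP_c307ca_nt.SumsOfAlmostUnits
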